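import Mathlib

namespace Pool.Agent.Results.MP_bae362_pr.Complete
open MeasureTheory Filter Topology Set

/-- `v` satisfies the `n`-alternation inequality, for every `n ≥ 1`, on the sets of the class `C`. -/
def CompletelyAlternating {E : Type*} (C : Set (Set E)) (v : Set E → ℝ) : Prop :=
  ∀ (n : ℕ) (A : Fin (n + 1) → Set E), (⋂ i, A i) ∈ C →
    (∀ I : Finset (Fin (n + 1)), I.Nonempty → (⋃ i ∈ I, A i) ∈ C) →
    v (⋂ i, A i) ≤ ∑ I ∈ (Finset.univ : Finset (Finset (Fin (n + 1)))).erase ∅,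
      (-1 : ℝ) ^ (I.card + 1) * v (⋃ i ∈ I, A i)

section cm
variable {ι : Type} [DecidableEq ι]

def D : List ι → (Finset ι → ℝ) → Finset ι → ℝ
  | [], f, I => f I
  | i :: l, f, I => D l f I - D l f (insert i I)

def CM (f : Finset ι → ℝ) : Prop := ∀ l I, 0 ≤ D l f I

lemma D_lin (l : List ι) (a b : ℝ) (f g : Finset ι → ℝ) :
    ∀ I, D l (fun J => a * f J + b * g J) I = a * D l f I + b * D l g I := by
  induction l with
  | nil => intro I; rfl
  | cons i l ih => intro I; simp only [D, ih]; ring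

lemma D_shift (l : List ι) (i : ι) (f : Finset ι → ℝ) :
    ∀ I, D l (fun J => f (insert i J)) I = D l f (insert i I) := by
  induction l with
  | nil => intro I; rfl
  | cons j l ih => intro I; simp only [D, ih]; rw [Finset.insert_comm]

lemma D_cons (l : List ι) (i : ι) (f : Finset ι → ℝ) (I : Finset ι) :
    D (i :: l) f I = D l (fun J => f J - f (insert i J)) I := by
  have := D_lin l 1 (-1) f (fun J => f (insert i J)) I
  rw [D_shift] at this
  simp only [D, one_mul, neg_mul, ← sub_eq_add_neg] at this ⊢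
  exact this.symm

lemma CM.lin {f g : Finset ι → ℝ} (hf : CM f) (hg : CM g) {a b : ℝ} (ha : 0 ≤ a) (hb : 0 ≤ b) :
    CM fun J => a * f J + b * g J := fun l I => by
  rw [D_lin]; have := hf l I; have := hg l I; positivity

lemma CM.mul {f g : Finset ι → ℝ} (hf : CM f) (hg : CM g) : CM fun J => f J * g J := by
  intro l
  induction l generalizing f g with
  | nil => intro I; exact mul_nonneg (hf [] I) (hg [] I)
  | cons i l ih =>
    intro I
    have h1 := ih (f := fun J => f J - f (insert i J)) (g := g)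
      (fun l I => by rw [← D_cons]; exact hf _ _) hg I
    have h2 := ih (f := fun J => f (insert i J)) (g := fun J => g J - g (insert i J))
      (fun l I => by rw [D_shift]; exact hf _ _) (fun l I => by rw [← D_cons]; exact hg _ _) I
    have h3 := D_lin l 1 1 (fun J => (f J - f (insert i J)) * g J)
      (fun J => f (insert i J) * (g J - g (insert i J))) I
    rw [D_cons]
    have h4 : (fun J => f J * g J - f (insert i J) * g (insert i J)) =
        fun J => 1 * ((f J - f (insert i J)) * g J) +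
          1 * (f (insert i J) * (g J - g (insert i J))) := by
      funext J; ring
    rw [h4, h3]
    linarith

lemma cm_max (M : ℝ) (h : Finset ι → ℝ) (b : ι → ℝ) (h1 : ∀ I, h I ≤ M)
    (h2 : ∀ i I, h (insert i I) = max (h I) (b i)) : CM fun I => M - h I := by
  have : ∀ l : List ι, ∃ β, ∀ I, D l (fun I => M - h I) I = max (β - h I) 0 := by
    intro l
    induction l with
    | nil => exact ⟨M, fun I => (max_eq_left (sub_nonneg.2 (h1 I))).symm⟩
    | cons i l ih =>
      obtain ⟨β, hβ⟩ := ih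
      refine ⟨min β (b i), fun I => ?_⟩
      rw [D, hβ, hβ, h2]
      simp only [max_def, min_def]
      split_ifs <;> linarith
  intro l I
  obtain ⟨β, hβ⟩ := this l
  rw [hβ]
  exact le_max_right _ _

lemma cm_one : CM fun _ : Finset ι => (1 : ℝ) := by
  simpa using cm_max (ι := ι) 1 (fun _ => 0) (fun _ => 0) (fun _ => zero_le_one) (by simp)

lemma CM.smul {f : Finset ι → ℝ} (hf : CM f) {a : ℝ} (ha : 0 ≤ a) : CM fun J => a * f J := by
  simpa using hf.lin hf ha le_rfl

lemma CM.pow {f : Finset ι → ℝ} (hf : CM f) (k : ℕ) : CM fun J => f J ^ k := by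
  induction k with
  | zero => simpa using cm_one
  | succ k ih => simpa only [pow_succ] using ih.mul hf

lemma cm_lim {F : ℕ → Finset ι → ℝ} {f : Finset ι → ℝ} (hF : ∀ n, CM (F n))
    (h : ∀ I, Tendsto (fun n => F n I) atTop (𝓝 (f I))) : CM f := by
  have : ∀ l I, Tendsto (fun n => D l (F n) I) atTop (𝓝 (D l f I)) := by
    intro l
    induction l with
    | nil => exact h
    | cons i l ih => intro I; exact (ih I).sub (ih _)
  exact fun l I => ge_of_tendsto' (this l I) fun n => hF n l I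

lemma cm_integral {Ω : Type*} [MeasurableSpace Ω] (P : Measure Ω) (φ : Ω → Finset ι → ℝ)
    (h1 : ∀ᵐ ω ∂P, CM (φ ω)) (h2 : ∀ I, Integrable (fun ω => φ ω I) P) :
    CM fun I => ∫ ω, φ ω I ∂P := by
  have : ∀ l I, Integrable (fun ω => D l (φ ω) I) P ∧
      D l (fun I => ∫ ω, φ ω I ∂P) I = ∫ ω, D l (φ ω) I ∂P := by
    intro l
    induction l with
    | nil => exact fun I => ⟨h2 I, rfl⟩
    | cons i l ih =>
      intro I
      refine ⟨(ih I).1.sub (ih _).1, ?_⟩
      simp only [D]
      rw [(ih I).2, (ih _).2, integral_sub (ih I).1 (ih _).1]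
  intro l I
  rw [(this l I).2]
  exact integral_nonneg_of_ae (h1.mono fun ω h => h l I)

lemma CM.inv {R : Finset ι → ℝ} (hR : CM R) {C : ℝ} (h : ∀ I, R I < C) :
    CM fun I => (C - R I)⁻¹ := by
  have h0 : ∀ I, 0 ≤ R I := hR []
  have hC : 0 < C := (h0 ∅).trans_lt (h ∅)
  refine cm_lim (F := fun n I => ∑ k ∈ Finset.range n, C⁻¹ * (C⁻¹ * R I) ^ k) (fun n => ?_)
    fun I => ?_
  · induction n with
    | zero => simpa using hR.smul le_rfl
    | succ n ih =>
      simpa only [Finset.sum_range_succ, one_mul] using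
        ih.lin ((hR.smul (inv_pos.2 hC).le).pow n) zero_le_one (inv_pos.2 hC).le
  · have h1 : C⁻¹ * R I < 1 := by rw [inv_mul_lt_iff₀ hC, mul_one]; exact h I
    have := ((hasSum_geometric_of_lt_one (mul_nonneg (inv_pos.2 hC).le (h0 I)) h1).mul_left
      C⁻¹).tendsto_sum_nat
    convert this using 2
    have h2 : C - R I ≠ 0 := (sub_pos.2 (h I)).ne'
    field_simp

lemma cm_ratio {s T : Finset ι → ℝ} {c : ℝ} (hs : ∀ I, 0 ≤ s I) (hT : CM T)
    (hR : CM fun I => c - s I - T I) : CM fun I => 1 - s I / (s I + T I) := by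
  have hT0 : ∀ I, 0 ≤ T I := hT []
  have hR0 : ∀ I, 0 ≤ c - s I - T I := hR []
  have hc : 0 < c + 1 := by linarith [hs ∅, hT0 ∅, hR0 ∅]
  have hZ : CM fun I => if s I = 0 then (1 : ℝ) else 0 := by
    have h1 : CM fun I => 1 - s I / (c + 1) := by
      have := ((hR.lin hT zero_le_one zero_le_one).lin cm_one zero_le_one zero_le_one).smul
        (inv_pos.2 hc).le
      convert this using 2
      field_simp
      ring
    refine cm_lim h1.pow fun I => ?_
    split_ifs with h
    · simp [h]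
    · refine tendsto_pow_atTop_nhds_zero_of_lt_one (h1 [] I) ?_
      have := div_pos (lt_of_le_of_ne (hs I) (Ne.symm h)) hc
      linarith
  refine cm_lim (F := fun n I => (1 * T I + 1 / ((n : ℝ) + 1) * (if s I = 0 then (1 : ℝ) else 0)) *
    (c + 1 / ((n : ℝ) + 1) - (c - s I - T I))⁻¹) (fun n => ?_) fun I => ?_
  · have he : (0 : ℝ) < 1 / ((n : ℝ) + 1) := by positivity
    exact (hT.lin hZ zero_le_one he.le).mul (hR.inv fun I => by linarith [hs I, hT0 I])
  · by_cases h : s I = 0
    · simp only [h, if_true, zero_div, sub_zero]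
      refine tendsto_const_nhds.congr fun n => ?_
      have he : (0 : ℝ) < 1 / ((n : ℝ) + 1) := by positivity
      rw [show c + 1 / ((n : ℝ) + 1) - (c - T I) = 1 * T I + 1 / ((n : ℝ) + 1) * 1 by ring,
        mul_inv_cancel₀ (by linarith [hT0 I])]
    · have hp : 0 < s I + T I := by linarith [lt_of_le_of_ne (hs I) (Ne.symm h), hT0 I]
      simp only [if_neg h, mul_zero, add_zero, one_mul]
      have h1 := ((tendsto_one_div_add_atTop_nhds_zero_nat (𝕜 := ℝ)).const_add c).sub_const
        (c - s I - T I)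
      have h2 := (h1.inv₀ (by linarith)).const_mul (T I)
      convert h2 using 2
      rw [show c + 0 - (c - s I - T I) = s I + T I by ring]
      field_simp
      ring

lemma D_eq (f : Finset ι → ℝ) (l : List ι) (hl : l.Nodup) :
    ∀ I, D l f I = ∑ K ∈ l.toFinset.powerset, (-1 : ℝ) ^ K.card * f (K ∪ I) := by
  induction l with
  | nil => intro I; simp [D]
  | cons i l ih =>
    intro I
    rw [List.nodup_cons] at hl
    have hi : i ∉ l.toFinset := by simpa using hl.1
    rw [D, ih hl.2, ih hl.2, List.toFinset_cons, Finset.sum_powerset_insert hi, sub_eq_add_neg,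
      ← Finset.sum_neg_distrib]
    congr 1
    refine Finset.sum_congr rfl fun K hK => ?_
    have : i ∉ K := fun h => hi (Finset.mem_powerset.1 hK h)
    rw [Finset.card_insert_of_notMem this, Finset.insert_union, Finset.union_insert]
    ring

end cm

variable {E : Type*}

def U {n : ℕ} (A : Fin (n + 1) → Set E) (I : Finset (Fin (n + 1))) : Set E :=
  (⋂ i, A i) ∪ ⋃ i ∈ I, A i

lemma U_insert {n : ℕ} (A : Fin (n + 1) → Set E) (i I) : U A (insert i I) = U A I ∪ A i := by
  ext x; simp only [U, mem_union, Finset.set_biUnion_insert]; tauto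

lemma U_ne {n : ℕ} (A : Fin (n + 1) → Set E) {I} (h : I.Nonempty) : U A I = ⋃ i ∈ I, A i := by
  obtain ⟨i, hi⟩ := h
  exact union_eq_right.2 fun x hx => mem_iUnion₂.2 ⟨i, hi, mem_iInter.1 hx i⟩

lemma alt_of_cm (C : Set (Set E)) (v : Set E → ℝ) (h : ∀ (n : ℕ) (A : Fin (n + 1) → Set E),
    (∀ I, U A I ∈ C) → CM fun I => 1 - v (U A I)) : CompletelyAlternating C v := by
  intro n A h1 h2
  have h0 : U A ∅ = ⋂ i, A i := by simp [U]
  have h3 := h n A (fun I => by
    rcases I.eq_empty_or_nonempty with rfl | hI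
    · rwa [h0]
    · rw [U_ne A hI]; exact h2 I hI) (List.finRange (n + 1)) ∅
  have h4 : List.finRange (n + 1) = 0 :: (List.finRange n).map Fin.succ := List.finRange_succ
  have h5 := D_lin (List.finRange (n + 1)) 1 (-1) (fun _ => 1) (fun I => v (U A I)) ∅
  have h6 : D (List.finRange (n + 1)) (fun _ => (1 : ℝ)) ∅ = 0 := by
    rw [h4, D, ← D_shift, sub_self]
  simp only [one_mul, neg_mul, ← sub_eq_add_neg] at h5
  rw [h5, h6, D_eq _ _ (List.nodup_finRange _), List.toFinset_finRange, Finset.powerset_univ,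
    ← Finset.add_sum_erase _ _ (Finset.mem_univ ∅)] at h3
  have h7 : ∑ I ∈ (Finset.univ : Finset (Finset (Fin (n + 1)))).erase ∅,
      (-1 : ℝ) ^ (I.card + 1) * v (⋃ i ∈ I, A i) =
      -∑ K ∈ (Finset.univ : Finset (Finset (Fin (n + 1)))).erase ∅,
        (-1 : ℝ) ^ K.card * v (U A (K ∪ ∅)) := by
    rw [← Finset.sum_neg_distrib]
    refine Finset.sum_congr rfl fun K hK => ?_
    rw [Finset.union_empty, U_ne A (Finset.nonempty_iff_ne_empty.2 (Finset.ne_of_mem_erase hK))]
    ring
  rw [h7]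
  simp only [Finset.card_empty, pow_zero, one_mul, Finset.union_empty, h0] at h3 ⊢
  linarith

lemma sup_union {L : E → ℝ} (hL : ∀ x, 0 ≤ L x) {X : Set E} (hb : BddAbove (L '' X))
    (A B : Set E) : sSup (L '' (X ∩ (A ∪ B))) = max (sSup (L '' (X ∩ A))) (sSup (L '' (X ∩ B))) := by
  have hn : ∀ S : Set E, 0 ≤ sSup (L '' S) := fun S =>
    Real.sSup_nonneg (by rintro _ ⟨x, -, rfl⟩; exact hL x)
  rw [inter_union_distrib_left, image_union]
  rcases (X ∩ A).eq_empty_or_nonempty with h | h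
  · simp [h, hn]
  rcases (X ∩ B).eq_empty_or_nonempty with h' | h'
  · simp [h', hn]
  exact csSup_union (hb.mono (image_mono inter_subset_left)) (h.image L)
    (hb.mono (image_mono inter_subset_left)) (h'.image L)

lemma sup_le {L : E → ℝ} (hL : ∀ x, 0 ≤ L x) {X : Set E} (hb : BddAbove (L '' X)) (A : Set E) :
    0 ≤ sSup (L '' (X ∩ A)) ∧ sSup (L '' (X ∩ A)) ≤ sSup (L '' X) := by
  have h := sup_union hL hb A univ
  rw [union_univ, inter_univ] at h
  exact ⟨Real.sSup_nonneg (by rintro _ ⟨x, -, rfl⟩; exact hL x), h ▸ le_max_left _ _⟩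

open Classical in
lemma cm_avoid {n : ℕ} (A : Fin (n + 1) → Set E) (X : Set E) :
    CM fun I => if X ∩ U A I = ∅ then (1 : ℝ) else 0 := by
  have := cm_max 1 (fun I => if X ∩ U A I = ∅ then (0 : ℝ) else 1)
    (fun i => if X ∩ A i = ∅ then (0 : ℝ) else 1) (fun I => by split_ifs <;> norm_num)
    (fun i I => by
      simp only [U_insert, inter_union_distrib_left, union_empty_iff]
      by_cases h1 : X ∩ U A I = ∅ <;> by_cases h2 : X ∩ A i = ∅ <;> simp [h1, h2])
  convert this using 2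
  split_ifs <;> norm_num

/-- `s(A) = E sup {L x : x ∈ X ∩ A}` (the supremum of the empty set is `0`). -/
noncomputable def sF {Ω : Type*} [MeasurableSpace Ω] (P : Measure Ω) (X : Ω → Set E) (L : E → ℝ)
    (A : Set E) : ℝ := ∫ ω, sSup (L '' (X ω ∩ A)) ∂P

open Classical in
/-- `t(A) = E [inf {L x : x ∈ X} ; X ∩ A = ∅]`. -/
noncomputable def tF {Ω : Type*} [MeasurableSpace Ω] (P : Measure Ω) (X : Ω → Set E) (L : E → ℝ)
    (A : Set E) : ℝ := ∫ ω, sInf (L '' X ω) * (if X ω ∩ A = ∅ then 1 else 0) ∂P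

theorem part1 {Ω : Type*} [MeasurableSpace Ω] (P : Measure Ω) (X : Ω → Set E) (L : E → ℝ)
    (hL : ∀ x, 0 ≤ L x) (hX : ∀ᵐ ω ∂P, (X ω).Nonempty ∧ BddAbove (L '' X ω))
    (hint : Integrable (fun ω => sSup (L '' X ω)) P)
    (hinf : AEMeasurable (fun ω => sInf (L '' X ω)) P) :
    CompletelyAlternating {A | AEMeasurable (fun ω => sSup (L '' (X ω ∩ A))) P ∧
        NullMeasurableSet {ω | X ω ∩ A = ∅} P}
      fun A => sF P X L A / (sF P X L A + tF P X L A) := by
  classical
  refine alt_of_cm _ _ fun n A hA => ?_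
  have hbb : ∀ ω, BddBelow (L '' X ω) := fun ω => ⟨0, by rintro _ ⟨x, -, rfl⟩; exact hL x⟩
  have hi0 : ∀ ω, 0 ≤ sInf (L '' X ω) := fun ω =>
    Real.sInf_nonneg (by rintro _ ⟨x, -, rfl⟩; exact hL x)
  have hi1 : ∀ ω, BddAbove (L '' X ω) → ∀ B, X ω ∩ B ≠ ∅ →
      sInf (L '' X ω) ≤ sSup (L '' (X ω ∩ B)) := by
    intro ω hb B h
    obtain ⟨x, hx⟩ := nonempty_iff_ne_empty.2 h
    exact (csInf_le (hbb ω) ⟨x, hx.1, rfl⟩).trans
      (le_csSup (hb.mono (image_mono inter_subset_left)) ⟨x, hx, rfl⟩)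
  have hi2 : ∀ ω, (X ω).Nonempty ∧ BddAbove (L '' X ω) → sInf (L '' X ω) ≤ sSup (L '' X ω) :=
    fun ω h => by simpa using hi1 ω h.2 univ (by simpa using h.1.ne_empty)
  have I1 : ∀ I, Integrable (fun ω => sSup (L '' (X ω ∩ U A I))) P := fun I =>
    hint.mono' (hA I).1.aestronglyMeasurable (hX.mono fun ω h => by
      rw [Real.norm_of_nonneg (sup_le hL h.2 _).1]; exact (sup_le hL h.2 _).2)
  have I2 : ∀ I, Integrable
      (fun ω => sInf (L '' X ω) * (if X ω ∩ U A I = ∅ then (1 : ℝ) else 0)) P := fun I => by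
    refine hint.mono' (hinf.mul ?_).aestronglyMeasurable (hX.mono fun ω h => ?_)
    · have := (aemeasurable_const (b := (1 : ℝ)) (μ := P)).indicator₀ (hA I).2
      convert this using 2 with ω
      simp [indicator]
    · split_ifs
      · rw [mul_one, Real.norm_of_nonneg (hi0 ω)]; exact hi2 ω h
      · simpa using (hi0 ω).trans (hi2 ω h)
  refine cm_ratio (c := ∫ ω, sSup (L '' X ω) ∂P)
    (fun I => integral_nonneg_of_ae (hX.mono fun ω h => (sup_le hL h.2 _).1))
    (cm_integral P _ (ae_of_all _ fun ω => (cm_avoid A (X ω)).smul (hi0 ω)) I2) ?_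
  have I3 : ∀ I, Integrable (fun ω => sSup (L '' (X ω ∩ U A I)) +
      sInf (L '' X ω) * (if X ω ∩ U A I = ∅ then (1 : ℝ) else 0)) P := fun I => (I1 I).add (I2 I)
  have := cm_integral P (fun ω I => sSup (L '' X ω) - (sSup (L '' (X ω ∩ U A I)) +
      sInf (L '' X ω) * (if X ω ∩ U A I = ∅ then (1 : ℝ) else 0)))
    (hX.mono fun ω hω => cm_max _ _ (fun i => sSup (L '' (X ω ∩ A i)) +
      sInf (L '' X ω) * (if X ω ∩ A i = ∅ then (1 : ℝ) else 0)) (fun I => ?_) fun i I => ?_)
    fun I => hint.sub (I3 I)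
  · convert this using 2 with I
    rw [integral_sub hint (I3 I), integral_add (I1 I) (I2 I), sF, tF]
    ring
  · split_ifs with h
    · simpa [h] using hi2 ω hω
    · simpa using (sup_le hL hω.2 _).2
  · rw [U_insert, sup_union hL hω.2]
    simp only [inter_union_distrib_left, union_empty_iff]
    by_cases h1 : X ω ∩ U A I = ∅ <;> by_cases h2 : X ω ∩ A i = ∅
    · simp [h1, h2]
    · simp [h1, h2, hi1 ω hω.2 _ h2, (sup_le hL hω.2 (A i)).1]
    · simp [h1, h2, hi1 ω hω.2 _ h1, (sup_le hL hω.2 (U A I)).1]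
    · simp [h1, h2]

theorem part2 [MeasurableSpace E] (P : Measure E) (L : E → ℝ) (hL : ∀ x, 0 ≤ L x)
    (hb : BddAbove (range L)) (hint : Integrable L P) {ε : ℝ} (h0 : 0 < ε) (h1 : ε < 1) :
    CompletelyAlternating {A | MeasurableSet A} fun A =>
      ((1 - ε) * ∫ x in A, L x ∂P + ε * sSup (L '' A)) /
        ((1 - ε) * ∫ x, L x ∂P + ε * sSup (L '' A)) := by
  classical
  refine alt_of_cm _ _ fun n A hA => ?_
  have hb' : BddAbove (L '' univ) := by rwa [image_univ]
  have he : ∀ I, (fun x => L x * (if {x} ∩ U A I = ∅ then (1 : ℝ) else 0)) =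
      (U A I)ᶜ.indicator L := fun I => by
    funext x
    by_cases h : x ∈ U A I <;> simp [indicator, h]
  have hT := (cm_integral P (fun x I => L x * (if {x} ∩ U A I = ∅ then (1 : ℝ) else 0))
    (ae_of_all _ fun x => (cm_avoid A {x}).smul (hL x))
    fun I => by rw [he]; exact hint.indicator (hA I).compl).smul (sub_pos.2 h1).le
  simp only [he] at hT
  have hadd : ∀ I, ∫ x, (U A I)ᶜ.indicator L x ∂P = ∫ x, L x ∂P - ∫ x in U A I, L x ∂P :=
    fun I => by
      rw [integral_indicator (hA I).compl, ← integral_add_compl (hA I) hint]; ring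
  have := cm_ratio (c := (1 - ε) * ∫ x, L x ∂P + ε * sSup (L '' univ))
    (s := fun I => (1 - ε) * ∫ x in U A I, L x ∂P + ε * sSup (L '' U A I))
    (fun I => add_nonneg (mul_nonneg (sub_pos.2 h1).le (integral_nonneg hL))
      (mul_nonneg h0.le (by simpa using (sup_le hL hb' (U A I)).1))) hT ?_
  · convert this using 4 with I
    rw [hadd]; ring
  · have h2 := (cm_max (sSup (L '' univ)) (fun I => sSup (L '' U A I)) (fun i => sSup (L '' A i))
      (fun I => by simpa using (sup_le hL hb' (U A I)).2)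
      (fun i I => by simpa [U_insert] using sup_union hL hb' (U A I) (A i))).smul h0.le
    convert h2 using 2 with I
    rw [hadd]; ring

theorem result :
    (∀ (E Ω : Type) [MeasurableSpace Ω] (P : Measure Ω) [IsProbabilityMeasure P]
      (X : Ω → Set E) (L : E → ℝ), (∀ x, 0 ≤ L x) →
      (∀ᵐ ω ∂P, (X ω).Nonempty ∧ BddAbove (L '' X ω)) → Integrable (fun ω => sSup (L '' X ω)) P →
      AEMeasurable (fun ω => sInf (L '' X ω)) P →
      CompletelyAlternating {A | AEMeasurable (fun ω => sSup (L '' (X ω ∩ A))) P ∧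
          NullMeasurableSet {ω | X ω ∩ A = ∅} P}
        fun A => sF P X L A / (sF P X L A + tF P X L A)) ∧
    (∀ (E : Type) [MeasurableSpace E] (P : Measure E) [IsProbabilityMeasure P] (L : E → ℝ),
      (∀ x, 0 ≤ L x) → Measurable L → BddAbove (range L) → ∀ ε : ℝ, 0 < ε → ε < 1 →
      CompletelyAlternating {A | MeasurableSet A} fun A =>
        ((1 - ε) * ∫ x in A, L x ∂P + ε * sSup (L '' A)) /
          ((1 - ε) * ∫ x, L x ∂P + ε * sSup (L '' A))) := by
  refine ⟨fun E Ω _ P _ X L h1 h2 h4 h5 => part1 P X L h1 h2 h4 h5,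
    fun E _ P _ L h1 h2 h3 ε h4 h5 => part2 P L h1 h3 ?_ h4 h5⟩
  obtain ⟨M, hM⟩ := h3
  exact Integrable.of_bound h2.aestronglyMeasurable M (ae_of_all _ fun x => by
    rw [Real.norm_of_nonneg (h1 x)]; exact hM ⟨x, rfl⟩)

end Pool.Agent.Results.MP_bae362_pr.Complete
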